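import Pool.Agent.KDM.C10
import Pool.Agent.KDM.C103
import Pool.Agent.KDM.C85
import Pool.Agent.KDM.C93
import Pool.Agent.KDM.C98

/-!
# MP_cc45c1_ag: the Krull dimension of `R_{g,n} = O(T^* M̄_{g,n})` for all `(g, n)`

The Krull dimension of `R_{g,n}` is `2` for `(g, n) = (0, 4)` and `(1, 1)`, it is `4` for
`(g, n) = (0, 5)`, and it is `0` for all other `(g, n)` with `2 g - 2 + n > 0`.

For `g ≥ 1` the ring `R_{g,n}` is the ring `Std.Reg g n` of the functions `F(x, l)` of a stable
curve `x` over a `ℂ`-algebra and a covector `l` at `x` which are compatible with base change.  As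
`T^* M̄_{g,n}` is integral, restriction to the covectors at a generic curve `x` is injective:
`R_{g,n}` is isomorphic to `Std.Img g x`.  `Std.Answer g n d` says that the Krull dimension of this
ring is `d`, for a generic smooth curve `x` over an algebraically closed field.

For `g = 0` the ring `R_{0,n}` is `M0n.Reg (n - 3)`, defined by the affine charts of the smooth
projective variety `M̄_{0,n}`, the closure of `M_{0,n}` in the product of the projective lines of
all cross ratios.
-/

namespace Pool.Agent.Results.MP_cc45c1_ag.KrullDimension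

open Pool.Agent.MG

/-- The Krull dimension of `R_{g,n}`. -/
theorem result (g n : ℕ) (h : 2 < 2 * g + n) :
    (1 ≤ g → Std.Answer g n (if g = 1 ∧ n = 1 then 2 else 0)) ∧
      (g = 0 → ringKrullDim (M0n.Reg (n - 3)) = if n = 4 then 2 else if n = 5 then 4 else 0) := by
  constructor
  · intro hg
    split_ifs with h1
    · obtain ⟨rfl, rfl⟩ := h1
      exact Std.answer_one_one
    · rcases Nat.lt_or_ge g 3 with h3 | h3
      · interval_cases g
        · exact (Std.rigid_1 n (by omega)).answer
        · exact (H2.rigid n).answer
      · exact (KX.rigid_of G0.Asm.a_UFI h3 n).answer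
  · rintro rfl
    obtain ⟨m, rfl⟩ : ∃ m, n = m + 3 := ⟨n - 3, by omega⟩
    rw [Nat.add_sub_cancel, M0n.krull_all]
    rcases m with _ | _ | _ | m <;> simp

end Pool.Agent.Results.MP_cc45c1_ag.KrullDimension
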